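import Pool.Agent.ATP.Stmts
import Pool.Agent.Helper23_AT5.DV5

/-!
# Squad ATP, row DVP: divisibility of the alternating sum
-/

open scoped BigOperators

noncomputable section

namespace Pool.Agent.PP.TP.H65

open Pool.Agent.Helper51_AWC Pool.Agent.Helper79_WRA Pool.Agent.PP Pool.Agent.PP.KF
open Pool.Agent.PP.K9 Pool.Agent.PP.K9.H97 Pool.Agent.PP.H75 Pool.Agent.PP.T3 Pool.Agent.PP.T2
open Pool.Agent.PP.TB

attribute [local instance] Ideal.Quotient.field

theorem dvp : DvpStmt := by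
  intro ℓ _ M _ hM G _ _ hO a p e V he hT hC hz χ hχ h1
  have hℓ : ℓ.Prime := Fact.out
  have hD := T3.H24.isDef_of_tp hM he hT hχ h1
  obtain ⟨u, huZ, ho⟩ := hz
  have huV : u ∈ V := huZ.1
  have hcen : ∀ v ∈ V, v * u = u * v := fun v hv => Subgroup.mem_centralizer_iff.1 huZ.2 v hv
  have hZV : Zc V ≤ V := inf_le_left
  have hBi : ((Zc V).subgroupOf V).index ≤ ℓ ^ p := by
    have h2 := Subgroup.index_mul_card ((Zc V).subgroupOf V)
    have h3 : Nat.card ((Zc V).subgroupOf V) = Nat.card (Zc V) :=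
      Nat.card_congr (Subgroup.subgroupOfEquivOfLe hZV).toEquiv
    rw [h3] at h2
    have h4 : 0 < Nat.card (Zc V) := Nat.card_pos
    have h5 : ((Zc V).subgroupOf V).index * Nat.card (Zc V) ≤ ℓ ^ p * Nat.card (Zc V) := by
      rw [h2]
      exact hC
    exact Nat.le_of_mul_le_mul_right h5 h4
  obtain ⟨A, iA, ρ, hρ⟩ := T5.H23.exists_transfer (V := V) (a := a) (k := p) hℓ
    ((IsPGroup.iff_card (p := ℓ) (G := V)).1 hT.pg) ((Zc V).subgroupOf V)
    (fun x hx y hy => by
      have hx1 := Subgroup.mem_subgroupOf.1 hx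
      exact (Subgroup.mem_centralizer_iff.1 (Subgroup.mem_subgroupOf.1 hy).2 x
        hx1.1 |> fun h => Subtype.ext h)) hBi ⟨u, huV⟩ (fun v => Subtype.ext (hcen v v.2))
    (by rw [Subgroup.orderOf_mk, ho])
  have h2 := ML.mn3_ ℓ M hM G (by rw [hO]; exact bot_le) χ hχ V hD A ρ (by
      intro r hr
      rw [hO, Subgroup.mem_bot] at hr
      have h7 : r = 1 := Subtype.ext hr
      rw [h7, map_one]) ⟨u, huV⟩ (fun d => Subtype.ext (hcen d d.2).symm)
  rw [hO, Subgroup.card_bot, mul_one] at h2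
  exact (Int.natCast_dvd_natCast.2 hρ).trans h2

end Pool.Agent.PP.TP.H65
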