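import Pool.Agent.ATP.Stmts
import Pool.Agent.Helper65_AT2.TYA
import Pool.Agent.Helper62_AT3.LCJ
import Pool.Agent.Helper57_K9.Gq9
import Pool.Agent.Helper24_K9.Duc
import Pool.Agent.Helper20_PP.Nls

/-!
# Squad ATP, row TYP: the blocks of `N(Q)/Q` which are not over a conjugate of `(U, f)`
-/

open scoped BigOperators

noncomputable section

namespace Pool.Agent.PP.TP.H65

open Pool.Agent.Helper51_AWC Pool.Agent.Helper79_WRA Pool.Agent.PP Pool.Agent.PP.KF
open Pool.Agent.PP.K9 Pool.Agent.PP.K9.H97 Pool.Agent.PP.H75 Pool.Agent.PP.T3 Pool.Agent.PP.T2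
open Pool.Agent.PP.TB

attribute [local instance] Ideal.Quotient.field

set_option linter.unusedSectionVars false

section tools

variable {F G : Type} [Field F] [Group G] [Finite G] {ℓ : ℕ}

/-- the image of a central idempotent under the Brauer map -/
theorem brx (hF : GoodF ℓ F) {P : Subgroup G} (hP : IsPGroup ℓ P) {e : G → F} (he : IsIdem e) :
    Ix (Subgroup.centralizer (P : Set G)) (br P e) :=
  ⟨fun _ hx => H66.br_of_not_mem hx,
    (H20.brm ℓ F hF G P (Subgroup.centralizer (P : Set G)) hP le_rfl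
      (Subgroup.centralizer_le_normalizer _)).2.2 e he⟩

/-- a block of `C(V)` under `br_V(e)` -/
theorem gam_ex (hF : GoodF ℓ F) {e : G → F} {V : Subgroup G} (hblk : IsBlk e) (htp : Tp ℓ e V) :
    ∃ γ : G → F, Bx (Subgroup.centralizer (V : Set G)) γ ∧ mulF (br V e) γ = γ := by
  have hX := brx hF htp.pg hblk.1
  obtain ⟨g, hg, hg0⟩ := htp.gd
  obtain ⟨c, hc, hec, -⟩ := K9.H24.exists_blk
    (fun a : Subgroup.centralizer (V : Set G) → F => a)
    rfl (fun _ _ => rfl) hX.idem (by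
      intro h0
      have h1 := congrFun h0 ⟨g, hg⟩
      change br V e g = 0 at h1
      rw [H66.br_of_mem hg] at h1
      exact hg0 h1)
  have hrestr : (fun t : Subgroup.centralizer (V : Set G) =>
      PP.ext0 (Subgroup.centralizer (V : Set G)) c t) = c := H46.restr_ext0 _
  have hbx : Bx (Subgroup.centralizer (V : Set G))
      (PP.ext0 (Subgroup.centralizer (V : Set G)) c) := by
    refine ⟨fun x hx => H46.ext0_of_not_mem _ hx, ?_⟩
    rw [hrestr]
    exact hc
  refine ⟨_, hbx, ?_⟩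
  apply eq_of_res (mulF_supp _ hX.supp hbx.supp) hbx.supp
  rw [mulF_res _ _ hX.supp, hrestr]
  exact hec

/-- the normaliser of a conjugate -/
theorem mem_nor_conjS (g : G) (U : Subgroup G) (x : G) :
    x ∈ Subgroup.normalizer ((conjS g U : Subgroup G) : Set G) ↔
      g⁻¹ * x * g ∈ Subgroup.normalizer (U : Set G) := by
  constructor
  · intro h
    rw [Subgroup.mem_normalizer_iff] at h ⊢
    intro n
    have h1 := h (g * n * g⁻¹)
    rw [mem_conjS, mem_conjS] at h1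
    have e1 : g⁻¹ * (g * n * g⁻¹) * g = n := by group
    have e2 : g⁻¹ * (x * (g * n * g⁻¹) * x⁻¹) * g = g⁻¹ * x * g * n * (g⁻¹ * x * g)⁻¹ := by group
    rw [e1, e2] at h1
    exact h1
  · intro h
    rw [Subgroup.mem_normalizer_iff] at h ⊢
    intro n
    have h1 := h (g⁻¹ * n * g)
    have e2 : g⁻¹ * x * g * (g⁻¹ * n * g) * (g⁻¹ * x * g)⁻¹ = g⁻¹ * (x * n * x⁻¹) * g := by group
    rw [e2] at h1
    rw [mem_conjS, mem_conjS]
    exact h1

/-- the normaliser of `Q` normalises the centraliser of `Q` -/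
theorem nor_cent {Q : Subgroup G} {w : G} (hw : w ∈ Subgroup.normalizer (Q : Set G)) (y : G) :
    w * y * w⁻¹ ∈ Subgroup.centralizer (Q : Set G) ↔ y ∈ Subgroup.centralizer (Q : Set G) := by
  have key : ∀ v : G, v ∈ Subgroup.normalizer (Q : Set G) → ∀ z : G,
      z ∈ Subgroup.centralizer (Q : Set G) → v * z * v⁻¹ ∈ Subgroup.centralizer (Q : Set G) := by
    intro v hv z hz
    rw [Subgroup.mem_centralizer_iff] at hz ⊢
    intro q hq
    have h1 : v⁻¹ * q * v ∈ Q := by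
      have h2 := (Subgroup.mem_normalizer_iff.1 hv (v⁻¹ * q * v)).2 (by
        have e : v * (v⁻¹ * q * v) * v⁻¹ = q := by group
        rw [e]
        exact hq)
      exact h2
    have h3 := hz _ h1
    calc q * (v * z * v⁻¹) = v * ((v⁻¹ * q * v) * z) * v⁻¹ := by group
      _ = v * (z * (v⁻¹ * q * v)) * v⁻¹ := by rw [h3]
      _ = v * z * v⁻¹ * q := by group
  refine ⟨fun h => ?_, key w hw y⟩
  have h1 := key w⁻¹ (inv_mem hw) _ h
  have e : w⁻¹ * (w * y * w⁻¹) * w⁻¹⁻¹ = y := by group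
  rwa [e] at h1

end tools

/-- row TYP -/
theorem typ (zcf : ZcfStmt) (ctq : CtqStmt) (pqz : PqzStmt) (pmg : PmgStmt) (pxb : PxbStmt) :
    TypStmt := by
  intro ℓ _ M _ hM G _ _ a p r e V hH hCl f hFz Q hQp A _ _ π hπ hker f₁ hf₁ hff hno
  classical
  have hℓ : ℓ.Prime := Fact.out
  have hF : GoodF ℓ (FF M) := H50.fld ℓ Fact.out M hM
  obtain ⟨V', hV'⟩ := K9.H57.exists_tp (ℓ := ℓ) (f := f₁) hf₁.2.1
  obtain ⟨R, b, b₃, hQR, hRN, hRV', -, hR, -, -, hRe, hne, hin⟩ :=
    pqz ℓ M hM G e hH.blk.1 Q hQp A π hπ hker f₁ hf₁ hff V' hV'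
  obtain ⟨γ, hγ, hγe⟩ := gam_ex hF hH.blk hH.tp
  obtain ⟨g, hD, hle⟩ := pmg ℓ M hM G e V hH.blk hH.tp γ hγ hγe R b₃ hR hRe
  obtain ⟨D, hDg⟩ : ∃ D : Subgroup G, D = conjS g V := ⟨_, rfl⟩
  obtain ⟨γ₁, hγ₁⟩ : ∃ γ₁ : G → FF M, γ₁ = cj g γ := ⟨_, rfl⟩
  rw [← hDg, ← hγ₁] at hD hle
  have hRD : R ≤ D := hle.sub
  have hQD : Q ≤ D := hQR.trans hRD
  have hZR : Zc D ≤ R := by
    refine le_trans ?_ (hin D γ₁ hD hle)
    exact le_inf inf_le_left (inf_le_right.trans (Subgroup.centralizer_le hQD))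
  obtain ⟨-, z2, z3, -⟩ := zcf G V
  obtain ⟨⟨-, -, -, -, -, -⟩, z2D, -, -⟩ := zcf G D
  obtain ⟨z1V, -⟩ := zcf G V
  obtain ⟨-, -, -, -, z15, -⟩ := z1V
  obtain ⟨-, -, -, z24, -, -⟩ := z2 ℓ a
  obtain ⟨-, zD2, -⟩ := z2D ℓ a
  obtain ⟨-, z3b, -⟩ := z3 ℓ r p hCl
  have hClD : Cl ℓ r p D := by
    rw [hDg]
    exact z3b g
  have hUD : Uz ℓ a D = conjS g (Uz ℓ a V) := by
    rw [hDg]
    exact z24 g
  have hexpD : Monoid.exponent (Zc D) = ℓ ^ a := by
    rw [← hH.exp, hDg, z15 g]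
    exact (Monoid.exponent_eq_of_mulEquiv (conjSEquiv g (Zc V))).symm
  have ha : 0 < a := lt_of_le_of_lt (Nat.zero_le p) hH.lt
  obtain ⟨c1, c2⟩ := ctq ℓ G A r p D R (Subgroup.normalizer (Q : Set G)) π V' hD.pg hRD hRN hZR
    hRV'.symm
  refine ⟨V', hV', c1 hClD, ?_⟩
  rcases c2 a ha hexpD with h | h
  · exact h
  exfalso
  have hUQ : conjS g (Uz ℓ a V) ≤ Q := by
    rw [← hUD]
    refine h.trans ?_
    rw [hker, Subgroup.map_subgroupOf_eq_of_le Subgroup.le_normalizer]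
  have hDU : D ≤ Subgroup.centralizer ((conjS g (Uz ℓ a V) : Subgroup G) : Set G) := by
    rw [← hUD]
    exact zD2
  have h13 := hno g ⟨hUQ, hQD.trans hDU⟩
  obtain ⟨K, hK⟩ : ∃ K : Subgroup G,
    K = Subgroup.normalizer ((conjS g (Uz ℓ a V) : Subgroup G) : Set G) := ⟨_, rfl⟩
  have hDK : D ≤ K := by
    rw [hK]
    exact hDU.trans (Subgroup.centralizer_le_normalizer _)
  have hRQ : Subgroup.centralizer (R : Set G) ≤ Subgroup.centralizer (Q : Set G) :=
    Subgroup.centralizer_le hQR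
  have hCRK : Subgroup.centralizer (R : Set G) ≤ K := by
    rw [hK]
    exact hRQ.trans ((Subgroup.centralizer_le hUQ).trans (Subgroup.centralizer_le_normalizer _))
  have hEK : Bx K (cj g f) := by
    refine T3.H62.bx_cj (X := Subgroup.normalizer (Uz ℓ a V : Set G)) ?_ hFz.blk
    intro x
    rw [hK]
    exact mem_nor_conjS g _ x
  have hbD : mulF (br D (cj g f)) γ₁ = γ₁ := by
    rw [hDg, hγ₁, T2.H65.cj_br, ← cj_mulF, hFz.brV, hγe]
  have hbR : mulF (br R (cj g f)) b₃ = b₃ :=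
    (pxb ℓ (FF M) hF G K (cj g f) hEK.ix D γ₁ hD hDK R b₃ hR hCRK hle).2 hbD
  obtain ⟨E, hE⟩ : ∃ E : G → FF M, E = cj g f := ⟨_, rfl⟩
  rw [← hE] at h13 hEK hbD hbR
  -- restriction to `N(Q)`
  have hCRN : Subgroup.centralizer (R : Set G) ≤ Subgroup.normalizer (Q : Set G) :=
    hRQ.trans (Subgroup.centralizer_le_normalizer _)
  obtain ⟨R₁, hR₁⟩ : ∃ R₁ : Subgroup (Subgroup.normalizer (Q : Set G)),
    R₁ = R.subgroupOf (Subgroup.normalizer (Q : Set G)) := ⟨_, rfl⟩
  rw [← hR₁] at hRV'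
  have hR₁p : IsPGroup ℓ R₁ := by
    rw [hR₁]
    exact hR.pg.comap_of_injective (Subgroup.normalizer (Q : Set G)).subtype
      (Subgroup.normalizer (Q : Set G)).subtype_injective
  have hR₁c : ∀ t : Subgroup.normalizer (Q : Set G),
      t ∈ Subgroup.centralizer (R₁ : Set (Subgroup.normalizer (Q : Set G))) ↔
        (t : G) ∈ Subgroup.centralizer (R : Set G) := by
    rw [hR₁]
    exact cent_sub hRN
  have hEinv : ∀ w ∈ K, ∀ x, E (w * x * w⁻¹) = E x := fun w hw =>
    (cj_eq_iff w E).1 (hEK.ix.inv hw)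
  have hbrinv : H66.Inv R₁ (fun t : Subgroup.normalizer (Q : Set G) => br Q E t) := by
    intro w hw x
    rw [hR₁] at hw
    have hw1 : (w : G) ∈ R := Subgroup.mem_subgroupOf.1 hw
    change br Q E ((w : G) * x * (w : G)⁻¹) = br Q E x
    have hwC := nor_cent (Q := Q) w.2
    by_cases hx : (x : G) ∈ Subgroup.centralizer (Q : Set G)
    · rw [br_in _ hx, br_in _ ((hwC x).2 hx)]
      exact hEinv _ (hDK (hRD hw1)) _
    · rw [br_out _ hx, br_out _ (fun h' => hx ((hwC x).1 h'))]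
  have hbb : br R₁ (fun t : Subgroup.normalizer (Q : Set G) => br Q E t) =
      fun t : Subgroup.normalizer (Q : Set G) => br R E t := by
    funext t
    by_cases ht : (t : G) ∈ Subgroup.centralizer (R : Set G)
    · rw [br_in _ ((hR₁c t).2 ht), br_in _ ht, br_in _ (hRQ ht)]
    · rw [br_out _ (fun h => ht ((hR₁c t).1 h)), br_out _ ht]
  obtain ⟨B, hB⟩ : ∃ B : A → FF M,
    B = push π (fun t : Subgroup.normalizer (Q : Set G) => br R E t) := ⟨_, rfl⟩
  have hBV : br V' (push π (fun t : Subgroup.normalizer (Q : Set G) => br Q E t)) = B := by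
    funext y
    by_cases hy : y ∈ Subgroup.centralizer (V' : Set A)
    · rw [← hRV'] at hy ⊢
      rw [br_in _ hy, T2.H65.push_br_inv hF hR₁p hbrinv hy, hbb, hB]
    · rw [br_out _ hy, hB]
      have := Fintype.ofFinite (Subgroup.normalizer (Q : Set G))
      rw [push_eq]
      symm
      refine Finset.sum_eq_zero fun t _ => ?_
      split_ifs with h1
      · apply br_out
        intro h2
        apply hy
        rw [Subgroup.mem_centralizer_iff]
        rintro v hv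
        rw [SetLike.mem_coe, ← hRV'] at hv
        obtain ⟨s, hs, rfl⟩ := hv
        rw [← h1, ← map_mul, ← map_mul]
        have h3 := Subgroup.mem_centralizer_iff.1 ((hR₁c t).2 h2) s hs
        rw [h3]
      · rfl
  have hi₁ : H66.Inv V' f₁ := H66.IsCl.inv hf₁.1.1 _
  have hi₂ : H66.Inv V' (push π (fun t : Subgroup.normalizer (Q : Set G) => br Q E t)) := by
    rw [← hRV']
    exact T2.H65.push_inv hbrinv
  have h14 : mulF B (br V' f₁) = 0 := by
    rw [← hBV, ← H66.br_mulF hF hV'.pg hi₂ hi₁, h13]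
    funext t
    by_cases ht : t ∈ Subgroup.centralizer (V' : Set A)
    · rw [br_in _ ht]
    · rw [br_out _ ht]
      rfl
  have hcomm : mulF (br R E) b₃ = mulF b₃ (br R E) :=
    mulF_comm_of (K := Subgroup.centralizer (R : Set G)) (fun x hx => br_out _ hx)
      (fun k hk => hR.blk.ix.inv hk)
  have h15 : mulF (push π (fun t : Subgroup.normalizer (Q : Set G) => b₃ t)) B =
      push π (fun t : Subgroup.normalizer (Q : Set G) => b₃ t) := by
    rw [hB, ← push_mulF, ← mulF_res (Subgroup.normalizer (Q : Set G)) (br R E)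
      (fun x hx => hR.blk.supp x (fun h => hx (hCRN h))), ← hcomm, hbR]
  apply hne
  rw [← h15, H20.mulF_assoc, h14]
  exact mulF_zero_right _

end Pool.Agent.PP.TP.H65
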